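import Pool.Agent.H510.EX.Crit

/-!
# Extreme values of zeta on the critical line in every universality class

The case `m = 1`, `π` trivial (`C_π = 1`, `L(s, π) = ζ(s)`). No hypothesis is assumed. Let `K` be a compact subset of the strip
`1/2 < Re z < 1`, `A` any class of functions and `ε > 0`. If the function `z ↦ ζ(z + it)` is near to the class `A` on `K` for a
proportion of at least `ε` of the heights `t ≤ T`, then among these `t` there is a set of measure `T ^ (1 - ε)` on which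
`|ζ(1/2 + it)| ≥ exp (c √(log T / log log T))`, and one on which `|ζ(1/2 + it)| ≤ exp (- c √(log T / log log T))`; the same is true
for `|ζ'(1/2 + iγ)|` at `T ^ (1 - ε)` isolated simple zeros. So Voronin's theorem holds at the extreme values of zeta, and the Riemann
hypothesis is equivalent to the self-approximation of zeta at the heights of its extreme values.
-/

set_option autoImplicit false

open Complex Filter Topology MeasureTheory

namespace Pool.Agent.Results.MP_52e316_nt.ExtremesInUniversalityClasses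

/-- the function `z ↦ ζ(z + it)` is, uniformly on `K`, at distance less than `x` from a member of the class `A` -/
def Near (K : Set ℂ) (A : Set (ℂ → ℂ)) (x t : ℝ) : Prop :=
  ∃ f ∈ A, ∃ r < x, ∀ z ∈ K, ‖riemannZeta (z + t * I) - f z‖ ≤ r

/-- the (Lebesgue) measure of the heights `t` in `(a, b]` with the property `P` -/
noncomputable def Heights (a b : ℝ) (P : ℝ → Prop) : ℝ := (volume {t : ℝ | t ∈ Set.Ioc a b ∧ P t}).toReal

/-- the `γ` in `(a, b]` for which `1/2 + iγ` is a simple zero of zeta at distance at least `r` from all the other nontrivial zeros -/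
def Isolated (r a b : ℝ) : Set ℝ :=
  {γ : ℝ | a < γ ∧ γ ≤ b ∧ riemannZeta (1 / 2 + γ * I) = 0 ∧ deriv riemannZeta (1 / 2 + γ * I) ≠ 0 ∧
    ∀ ρ : ℂ, riemannZeta ρ = 0 → 0 < ρ.re → ρ.re < 1 → ρ ≠ 1 / 2 + γ * I → r ≤ ‖ρ - (1 / 2 + γ * I)‖}

/-- the number of the simple zeros with ordinate in `(a, b]`, isolated at the scale `d / log b`, with the property `P` -/
noncomputable def Simple (d a b : ℝ) (P : ℝ → Prop) : ℝ := (({γ ∈ Isolated (d / Real.log b) a b | P γ}.ncard : ℕ) : ℝ)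

/-- the size of the extreme values up to the height `T` -/
noncomputable def size (T : ℝ) : ℝ := Real.sqrt (Real.log T / Real.log (Real.log T))

/-- large and small values, at heights in `(a, b]` with the property `P`: values of zeta, and of its derivative at simple zeros -/
def Large (c a b : ℝ) (P : ℝ → Prop) : ℝ → Prop := fun ε =>
  b ^ (1 - ε) ≤ Heights a b (fun t => P t ∧ Real.exp (c * size b) ≤ ‖riemannZeta (1 / 2 + t * I)‖)

/-- see `Large` -/
def Small (c a b : ℝ) (P : ℝ → Prop) : ℝ → Prop := fun ε =>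
  b ^ (1 - ε) ≤ Heights a b (fun t => P t ∧ ‖riemannZeta (1 / 2 + t * I)‖ ≤ Real.exp (-(c * size b)))

/-- see `Large` -/
def Large' (d c a b : ℝ) (P : ℝ → Prop) : ℝ → Prop := fun ε =>
  b ^ (1 - ε) ≤ Simple d a b (fun t => P t ∧ Real.exp (c * size b) ≤ ‖deriv riemannZeta (1 / 2 + t * I)‖)

/-- see `Large` -/
def Small' (d c a b : ℝ) (P : ℝ → Prop) : ℝ → Prop := fun ε =>
  b ^ (1 - ε) ≤ Simple d a b (fun t => P t ∧ ‖deriv riemannZeta (1 / 2 + t * I)‖ ≤ Real.exp (-(c * size b)))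

/-- self-approximation of zeta under the condition `Q` with a parameter `c`, on sets of size `T ^ (1 - ε)` for all `ε` -/
def SelfApprox (Q : ℝ → ℝ → ℝ → (ℝ → Prop) → ℝ → Prop) : Prop :=
  ∀ K : Set ℂ, IsCompact K → (∀ z ∈ K, 1 / 2 < z.re ∧ z.re < 1) → IsConnected Kᶜ → ∀ x : ℝ, 0 < x → ∀ ε : ℝ, 0 < ε →
    ∃ c : ℝ, 0 < c ∧ ∀ᶠ T : ℝ in atTop, Q c 0 T (fun t => ∀ z ∈ K, ‖riemannZeta (z + t * I) - riemannZeta z‖ < x) ε

theorem result :
    -- an absolute constant
    ∃ d : ℝ, 0 < d ∧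
    -- (1) all classes `A` and all radii `x` at once, on `(T, 2T]` and on `(0, T]`
    (∀ K : Set ℂ, IsCompact K → (∀ z ∈ K, 1 / 2 < z.re ∧ z.re < 1) → ∀ κ : ℝ, 0 < κ → ∀ ε : ℝ, 0 < ε →
      ∃ c : ℝ, 0 < c ∧ ∀ᶠ T : ℝ in atTop, ∀ a b : ℝ, (a = T ∧ b = 2 * T ∨ a = 0 ∧ b = T) → ∀ (A : Set (ℂ → ℂ)) (x : ℝ),
        ε * T ≤ Heights a b (Near K A x) →
        Large c a b (Near K A (x + κ)) ε ∧ Small c a b (Near K A (x + κ)) ε ∧
        Large' d c a b (Near K A (x + κ)) ε ∧ Small' d c a b (Near K A (x + κ)) ε) ∧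
    -- (2) universality at the extreme values
    (∀ K : Set ℂ, IsCompact K → (∀ z ∈ K, 1 / 2 < z.re ∧ z.re < 1) → IsConnected Kᶜ →
      ∀ f : ℂ → ℂ, ContinuousOn f K → DifferentiableOn ℂ f (interior K) → (∀ z ∈ interior K, f z ≠ 0) →
      ∀ x : ℝ, 0 < x → ∀ ε : ℝ, 0 < ε → ∃ c : ℝ, 0 < c ∧ ∀ᶠ T : ℝ in atTop,
        Large c 0 T (fun t => ∀ z ∈ K, ‖riemannZeta (z + t * I) - f z‖ < x) ε ∧
        Small c 0 T (fun t => ∀ z ∈ K, ‖riemannZeta (z + t * I) - f z‖ < x) ε ∧
        Large' d c 0 T (fun t => ∀ z ∈ K, ‖riemannZeta (z + t * I) - f z‖ < x) ε ∧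
        Small' d c 0 T (fun t => ∀ z ∈ K, ‖riemannZeta (z + t * I) - f z‖ < x) ε) ∧
    -- (3) the Riemann hypothesis is self-approximation of zeta at its extreme values
    List.TFAE [RiemannHypothesis, SelfApprox Large, SelfApprox Small, SelfApprox (Large' d), SelfApprox (Small' d)] := by
  obtain ⟨d, hd, hd1, hmain⟩ := H510.EX.both
  -- from a function to the class of one function
  have hto : ∀ (K : Set ℂ) (f : ℂ → ℂ) (x t : ℝ), H510.UZ.Near K {f} x t → ∀ z ∈ K, ‖riemannZeta (z + t * I) - f z‖ < x := by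
    rintro K f x t ⟨g, hg, r, hr, h2⟩ z hz
    rw [Set.mem_singleton_iff] at hg
    subst hg
    exact lt_of_le_of_lt (h2 z hz) hr
  have hfrom : ∀ (K : Set ℂ) (f : ℂ → ℂ) (x y t : ℝ), x < y → (∀ z ∈ K, ‖riemannZeta (z + t * I) - f z‖ < x) →
      H510.UZ.Near K {f} y t := by
    intro K f x y t hxy h
    exact ⟨f, rfl, x, hxy, fun z hz => (h z hz).le⟩
  have huniv : ∀ K : Set ℂ, IsCompact K → (∀ z ∈ K, 1 / 2 < z.re ∧ z.re < 1) → IsConnected Kᶜ →
      ∀ f : ℂ → ℂ, ContinuousOn f K → DifferentiableOn ℂ f (interior K) → (∀ z ∈ interior K, f z ≠ 0) →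
      ∀ x : ℝ, 0 < x → ∀ ε : ℝ, 0 < ε → ∃ c : ℝ, 0 < c ∧ ∀ᶠ T : ℝ in atTop,
        Large c 0 T (fun t => ∀ z ∈ K, ‖riemannZeta (z + t * I) - f z‖ < x) ε ∧
        Small c 0 T (fun t => ∀ z ∈ K, ‖riemannZeta (z + t * I) - f z‖ < x) ε ∧
        Large' d c 0 T (fun t => ∀ z ∈ K, ‖riemannZeta (z + t * I) - f z‖ < x) ε ∧
        Small' d c 0 T (fun t => ∀ z ∈ K, ‖riemannZeta (z + t * I) - f z‖ < x) ε := by
    intro K hK hKs hKc f hf hdf h0 x hx ε hε
    obtain ⟨p, hp, hv⟩ := H510.UZ.voronin K f hK hKs hKc hf hdf h0 (x / 2) (half_pos hx)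
    obtain ⟨c, hc, h⟩ := H510.EX.pos_density hd hmain K hK hKs {f} x hx p hp hv ε hε
    refine ⟨c, hc, ?_⟩
    filter_upwards [h, eventually_ge_atTop 2] with T hT hT2
    exact H510.EX.Four_mono hd.le le_rfl (by linarith) le_rfl le_rfl (hto K f x) hT
  refine ⟨d, hd, hmain, huniv, ?_⟩
  have hfwd : RiemannHypothesis → ∀ K : Set ℂ, IsCompact K → (∀ z ∈ K, 1 / 2 < z.re ∧ z.re < 1) → IsConnected Kᶜ →
      ∀ x : ℝ, 0 < x → ∀ ε : ℝ, 0 < ε → ∃ c : ℝ, 0 < c ∧ ∀ᶠ T : ℝ in atTop,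
        Large c 0 T (fun t => ∀ z ∈ K, ‖riemannZeta (z + t * I) - riemannZeta z‖ < x) ε ∧
        Small c 0 T (fun t => ∀ z ∈ K, ‖riemannZeta (z + t * I) - riemannZeta z‖ < x) ε ∧
        Large' d c 0 T (fun t => ∀ z ∈ K, ‖riemannZeta (z + t * I) - riemannZeta z‖ < x) ε ∧
        Small' d c 0 T (fun t => ∀ z ∈ K, ‖riemannZeta (z + t * I) - riemannZeta z‖ < x) ε := by
    intro hRH K hK hKs hKc x hx ε hε
    rw [H510.UZ.rh_iff] at hRH
    have hne : ∀ z ∈ K, z ≠ 1 := by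
      rintro z hz rfl
      have := (hKs 1 hz).2
      simp at this
    exact huniv K hK hKs hKc riemannZeta
      (fun z hz => (differentiableAt_riemannZeta (hne z hz)).continuousAt.continuousWithinAt)
      (fun z hz => (differentiableAt_riemannZeta (hne z (interior_subset hz))).differentiableWithinAt)
      (fun z hz => hRH z (hKs z (interior_subset hz)).1 (hKs z (interior_subset hz)).2) x hx ε hε
  tfae_have 1 → 2 := by
    intro hRH K hK hKs hKc x hx ε hε
    obtain ⟨c, hc, h⟩ := hfwd hRH K hK hKs hKc x hx ε hε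
    exact ⟨c, hc, h.mono fun T hT => hT.1⟩
  tfae_have 1 → 3 := by
    intro hRH K hK hKs hKc x hx ε hε
    obtain ⟨c, hc, h⟩ := hfwd hRH K hK hKs hKc x hx ε hε
    exact ⟨c, hc, h.mono fun T hT => hT.2.1⟩
  tfae_have 1 → 4 := by
    intro hRH K hK hKs hKc x hx ε hε
    obtain ⟨c, hc, h⟩ := hfwd hRH K hK hKs hKc x hx ε hε
    exact ⟨c, hc, h.mono fun T hT => hT.2.2.1⟩
  tfae_have 1 → 5 := by
    intro hRH K hK hKs hKc x hx ε hε
    obtain ⟨c, hc, h⟩ := hfwd hRH K hK hKs hKc x hx ε hε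
    exact ⟨c, hc, h.mono fun T hT => hT.2.2.2⟩
  tfae_have 2 → 1 := by
    intro h
    apply H510.EX.rh_of_self
    intro K hK hKs hKc x hx ε hε
    obtain ⟨c, hc, h1⟩ := h K hK hKs hKc (x / 2) (half_pos hx) ε hε
    refine (h1.mono fun T hT => hT.trans (H510.EX.Ms_mono_set le_rfl le_rfl ?_)).frequently
    intro t ht
    exact hfrom K riemannZeta (x / 2) x t (by linarith) ht.1
  tfae_have 3 → 1 := by
    intro h
    apply H510.EX.rh_of_self
    intro K hK hKs hKc x hx ε hε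
    obtain ⟨c, hc, h1⟩ := h K hK hKs hKc (x / 2) (half_pos hx) ε hε
    refine (h1.mono fun T hT => hT.trans (H510.EX.Ms_mono_set le_rfl le_rfl ?_)).frequently
    intro t ht
    exact hfrom K riemannZeta (x / 2) x t (by linarith) ht.1
  tfae_have 4 → 1 := by
    intro h
    apply H510.EX.rh_of_self_zeros hd hd1
    intro K hK hKs hKc x hx ε hε
    obtain ⟨c, hc, h1⟩ := h K hK hKs hKc (x / 2) (half_pos hx) ε hε
    refine ((h1.and (eventually_ge_atTop 2)).mono fun T hT => hT.1.trans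
      (H510.EX.NS_mono_set hd.le le_rfl le_rfl (by linarith [hT.2]) le_rfl ?_)).frequently
    intro t ht
    exact hfrom K riemannZeta (x / 2) x t (by linarith) ht.1
  tfae_have 5 → 1 := by
    intro h
    apply H510.EX.rh_of_self_zeros hd hd1
    intro K hK hKs hKc x hx ε hε
    obtain ⟨c, hc, h1⟩ := h K hK hKs hKc (x / 2) (half_pos hx) ε hε
    refine ((h1.and (eventually_ge_atTop 2)).mono fun T hT => hT.1.trans
      (H510.EX.NS_mono_set hd.le le_rfl le_rfl (by linarith [hT.2]) le_rfl ?_)).frequently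
    intro t ht
    exact hfrom K riemannZeta (x / 2) x t (by linarith) ht.1
  tfae_finish

end Pool.Agent.Results.MP_52e316_nt.ExtremesInUniversalityClasses
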